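import Pool.Agent.W309.RK.SCproof
import Pool.Agent.W313.Gr.Ord
import Pool.Agent.TH943.KD.Kd

/-!
The bound for the order of vanishing for the twists of pullbacks of the Legendre curve.
-/

set_option autoImplicit false
set_option linter.all false
set_option maxHeartbeats 4000000

open Polynomial FF Module

namespace Pool.Agent.TH943.LG

open Pool.Agent.W343.BSD Pool.Agent.W309.RF Pool.Agent.W309.RK

open Classical in
/-- the monic irreducible factors -/
noncomputable def primes {k : Type} [Field k] (g : k[X]) : Finset k[X] :=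
  (UniqueFactorizationMonoid.normalizedFactors g).toFinset

theorem mem_primes {k : Type} [Field k] {g P : k[X]} (hg : g ≠ 0) :
    P ∈ primes g ↔ P.Monic ∧ Irreducible P ∧ P ∣ g := by
  classical
  unfold primes
  rw [Multiset.mem_toFinset, UniqueFactorizationMonoid.mem_normalizedFactors_iff' hg]
  constructor
  · rintro ⟨h1, h2, h3⟩
    refine ⟨?_, h1, h3⟩
    rw [← h2]
    exact Polynomial.monic_normalize h1.ne_zero
  · rintro ⟨h1, h2, h3⟩
    exact ⟨h2, h1.normalize_eq_self, h3⟩

theorem bound (k : Type) [Field k] [Finite k] (h6 : (6 : k) ≠ 0) (h : k[X]) (hh : Irreducible h)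
    (hh1 : Irreducible (h - 1)) (hodd : Odd h.natDegree) (D : k[X]) (hD : D ≠ 0)
    (hcop : IsCoprime D (h * (h - 1))) (m : ℕ)
    (hm : S.VanishesTo k (aOf (A D) (A (D * h))) (bOf (A D) (A (D * h))) m) :
    m + (if Odd D.natDegree then 1 else 0) ≤ 2 * ∑ P ∈ primes D, twoPart P.natDegree := by
  classical
  have hpos : 0 < h.natDegree := hodd.pos
  have hh0 : h ≠ 0 := hh.ne_zero
  have hDh : D * h ≠ 0 := mul_ne_zero hD hh0
  have hs0 : D - D * h ≠ 0 := by
    have h1 : D - D * h = -(D * (h - 1)) := by ring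
    rw [h1]
    exact neg_ne_zero.2 (mul_ne_zero hD hh1.ne_zero)
  have hα' := A_ne hD
  have hβ' := A_ne hDh
  have hαβ' : A D ≠ A (D * h) := fun hE => by
    apply A_ne hs0
    show algebraMap _ _ _ = _
    rw [map_sub]
    exact sub_eq_zero.2 hE
  have hsub : A D - A (D * h) = A (D - D * h) :=
    (map_sub (algebraMap (Polynomial k) (RatFunc k)) D (D * h)).symm
  have hdegh1 : (h - 1).natDegree = h.natDegree := by
    have : h - 1 = h - C 1 := by rw [C_1]
    rw [this, natDegree_sub_C]
  have hfs : ({v : Place k (RatFunc k) | v.ord (A D) ≠ 0} ∪ {v | v.ord (A (D * h)) ≠ 0} ∪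
      {v | v.ord (A (D - D * h)) ≠ 0}).Finite :=
    ((H525R3.FFp.finite_support (k := k) (A D)).union
      (H525R3.FFp.finite_support (k := k) (A (D * h)))).union
      (H525R3.FFp.finite_support (k := k) (A (D - D * h)))
  let bad : Place k (RatFunc k) → Prop := fun v => ¬ (v.ord (A (D * h)) = v.ord (A D) ∧
    v.ord (A D - A (D * h)) = v.ord (A D) ∧ Even (v.ord (A D)))
  set B : Finset (Place k (RatFunc k)) := hfs.toFinset.filter bad with hB
  have hBmem : ∀ v, v ∉ B → ¬ bad v := by
    intro v hv hb
    apply hv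
    rw [hB, Finset.mem_filter, Set.Finite.mem_toFinset]
    refine ⟨?_, hb⟩
    by_contra h
    simp only [Set.mem_union, Set.mem_setOf_eq, not_or, not_not] at h
    apply hb
    rw [hsub, h.1.1, h.1.2, h.2]
    exact ⟨rfl, rfl, Even.zero⟩
  have hsa := sa k (RatFunc k) h6 (sb k).2.1 (sb k).2.2 (A D) (A (D * h)) hα' hβ' hαβ' B
    (fun v hv => not_not.1 (hBmem v hv)) m hm
  -- the irreducible polynomials
  set T : Finset k[X] := primes D ∪ {h, h - 1} with hT
  set G : k[X] → ℕ := fun ρ => if ρ ∈ primes D then 2 * twoPart ρ.natDegree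
    else twoPart ρ.natDegree with hG
  set Gi : ℕ := if Odd D.natDegree then 1 else 2 with hGi
  have hnh : h ∉ primes D := by
    intro hm
    have h1 := (mem_primes hD).1 hm
    exact hh.not_isUnit (hcop.isUnit_of_dvd' h1.2.2 (dvd_mul_right _ _))
  have hnh1 : h - 1 ∉ primes D := by
    intro hm
    have h1 := (mem_primes hD).1 hm
    exact hh1.not_isUnit (hcop.isUnit_of_dvd' h1.2.2 (dvd_mul_left _ _))
  have hne : h ≠ h - 1 := by
    intro h1
    have h2 : (1 : k[X]) = 0 := by linear_combination h1
    exact one_ne_zero h2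
  have htp : ∀ n : ℕ, Odd n → twoPart n = 1 := by
    intro n hn
    unfold twoPart
    have : ¬ 2 ∣ n := by
      intro h2
      obtain ⟨j, hj⟩ := hn
      omega
    rw [padicValNat.eq_zero_of_not_dvd this, pow_zero]
  have hsumT : ∑ ρ ∈ T, G ρ = 2 * ∑ P ∈ primes D, twoPart P.natDegree + 2 := by
    rw [hT, Finset.sum_union, Finset.mul_sum]
    · congr 1
      · refine Finset.sum_congr rfl fun P hP => ?_
        rw [hG]
        simp only
        rw [if_pos hP]
      · rw [Finset.sum_pair hne, hG]
        simp only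
        rw [if_neg hnh, if_neg hnh1, hdegh1, htp _ hodd]
    · rw [Finset.disjoint_left]
      intro P hP hP2
      rw [Finset.mem_insert, Finset.mem_singleton] at hP2
      rcases hP2 with rfl | rfl
      · exact hnh hP
      · exact hnh1 hP
  have hle : ∑ v ∈ B, (if Even (min (v.ord (A D)) (v.ord (A (D * h)))) then 1 else 2) *
      twoPart (S.deg v) ≤ ∑ ρ ∈ T, G ρ + Gi := by
    apply sum_le
    · intro v hv hX hg
      obtain ⟨π, hirr, hord, hnn, hdvd, hdeg⟩ := exists_irr hX
      have hbad : bad v := (Finset.mem_filter.1 hv).2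
      have hprime := hirr.prime
      by_cases hπD : π ∣ D
      · have hass : Associated π (normalize π) := (normalize_associated π).symm
        have hmon : (normalize π).Monic := Polynomial.monic_normalize hirr.ne_zero
        have hmem : normalize π ∈ primes D := by
          rw [mem_primes hD]
          exact ⟨hmon, hass.irreducible hirr, (hass.symm.dvd).trans hπD⟩
        refine ⟨normalize π, ?_, hass.irreducible hirr, ?_, ?_⟩
        · rw [hT]; exact Finset.mem_union_left _ hmem
        · exact (hdvd _ (hass.irreducible hirr).ne_zero).2 hass.dvd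
        · rw [hG]
          simp only
          rw [if_pos hmem, S.deg_eq, hdeg, deg_of_assoc hass]
          apply Nat.mul_le_mul_right
          split_ifs <;> omega
      · have hf1 := (hdvd D hD).not.2 hπD
        have g1 := hnn D hD
        have z1 : v.ord (A D) = 0 := by omega
        have hg2 := hnn (D * h) hDh
        have hmin : min (v.ord (A D)) (v.ord (A (D * h))) = 0 := by
          rw [z1]; exact min_eq_left hg2
        have h1 : π ∣ h ∨ π ∣ h - 1 := by
          by_contra hcon
          push Not at hcon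
          apply hbad
          have e2 : ¬ π ∣ D * h := fun h => (hprime.dvd_or_dvd h).elim hπD hcon.1
          have e3 : ¬ π ∣ D - D * h := by
            intro h1
            have h2 : D - D * h = -(D * (h - 1)) := by ring
            rw [h2, dvd_neg] at h1
            exact (hprime.dvd_or_dvd h1).elim hπD hcon.2
          have f2 := (hdvd _ hDh).not.2 e2
          have f3 := (hdvd _ hs0).not.2 e3
          have g3 := hnn _ hs0
          rw [hsub]
          have z2 : v.ord (A (D * h)) = 0 := by omega
          have z3 : v.ord (A (D - D * h)) = 0 := by omega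
          rw [z1, z2, z3]
          exact ⟨rfl, rfl, Even.zero⟩
        rcases h1 with h1 | h1
        · refine ⟨h, ?_, hh, (hdvd h hh0).2 h1, ?_⟩
          · rw [hT]; simp
          · rw [hG]
            simp only
            rw [if_neg hnh, hmin, if_pos Even.zero, one_mul, S.deg_eq, hdeg,
              deg_of_assoc (hirr.associated_of_dvd hh h1)]
        · refine ⟨h - 1, ?_, hh1, (hdvd _ hh1.ne_zero).2 h1, ?_⟩
          · rw [hT]; simp
          · rw [hG]
            simp only
            rw [if_neg hnh1, hmin, if_pos Even.zero, one_mul, S.deg_eq, hdeg,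
              deg_of_assoc (hirr.associated_of_dvd hh1 h1)]
    · intro v hv hX
      rw [S.deg_eq, inf_deg hX, twoPart_one, mul_one, inf_ord' hX hD, inf_ord' hX hDh,
        natDegree_mul hD hh0]
      have hmin : min (-(D.natDegree : ℤ)) (-((D.natDegree + h.natDegree : ℕ) : ℤ)) =
          -((D.natDegree + h.natDegree : ℕ) : ℤ) := by
        push_cast
        omega
      rw [hmin, hGi]
      by_cases hDo : Odd D.natDegree
      · have he : Even (-((D.natDegree + h.natDegree : ℕ) : ℤ)) := by
          rw [even_neg]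
          exact_mod_cast hDo.add_odd hodd
        rw [if_pos he, if_pos hDo]
      · rw [if_neg hDo]
        split_ifs <;> omega
  have hfin := hsa.trans hle
  rw [hsumT, hGi] at hfin
  split_ifs at hfin ⊢ <;> omega

section sign

/-- the parity of the order from a functional equation -/
theorem parity {q : ℚ} (hq : q ≠ 0) {P : ℚ[X]} (hP : P ≠ 0) {ε : ℚ}
    (hfe : ∀ x : ℚ, x ≠ 0 → x ^ P.natDegree * P.eval (x * q)⁻¹ = ε * P.eval (x / q)) :
    ε = (-1) ^ P.rootMultiplicity q⁻¹ := by
  set r := P.rootMultiplicity q⁻¹ with hr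
  obtain ⟨R, hR, hRr⟩ := Polynomial.exists_eq_pow_rootMultiplicity_mul_and_not_dvd P hP q⁻¹
  rw [← hr] at hR
  have hR0 : R ≠ 0 := by
    rintro rfl
    exact hRr (dvd_zero _)
  have hRe : R.eval q⁻¹ ≠ 0 := by
    intro h
    exact hRr (dvd_iff_isRoot.2 h)
  have hdeg : P.natDegree = r + R.natDegree := by
    rw [hR, natDegree_mul (pow_ne_zero _ (X_sub_C_ne_zero _)) hR0, natDegree_pow,
      natDegree_X_sub_C, mul_one]
  set e := R.natDegree with he
  -- the identity away from 0 and 1
  have key : ∀ x : ℚ, x ≠ 0 → x ≠ 1 →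
      (-1) ^ r * (x ^ e * R.eval (x * q)⁻¹) = ε * R.eval (x / q) := by
    intro x hx0 hx1
    have h1 := hfe x hx0
    rw [hdeg, hR] at h1
    simp only [eval_mul, eval_pow, eval_sub, eval_X, eval_C] at h1
    have e1 : (x * q)⁻¹ - q⁻¹ = (-1) * (x / q - q⁻¹) * x⁻¹ := by
      field_simp
      ring
    rw [e1, mul_pow, mul_pow] at h1
    have e2 : x / q - q⁻¹ ≠ 0 := by
      have : x / q - q⁻¹ = (x - 1) / q := by
        field_simp
      rw [this]
      exact div_ne_zero (sub_ne_zero.2 hx1) hq
    have e3 : x ^ (r + e) = x ^ e * x ^ r := by rw [add_comm, pow_add]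
    have e4 : x ^ r * (x⁻¹) ^ r = 1 := by
      rw [← mul_pow, mul_inv_cancel₀ hx0, one_pow]
    rw [e3] at h1
    have h2 : (x / q - q⁻¹) ^ r * ((-1) ^ r * (x ^ e * R.eval (x * q)⁻¹)) =
        (x / q - q⁻¹) ^ r * (ε * R.eval (x / q)) := by
      linear_combination h1 - (-1) ^ r * (x / q - q⁻¹) ^ r * x ^ e * R.eval (x * q)⁻¹ * e4
    exact mul_left_cancel₀ (pow_ne_zero r e2) h2
  -- as polynomials
  have hrev : ∀ x : ℚ, x ≠ 0 → (x * q) ^ e * R.eval (x * q)⁻¹ = R.reverse.eval (x * q) := by
    intro x hx0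
    have hxq : x * q ≠ 0 := mul_ne_zero hx0 hq
    let _ : Invertible (x * q)⁻¹ := invertibleOfNonzero (inv_ne_zero hxq)
    have h1 := Polynomial.eval₂_reverse_mul_pow (RingHom.id ℚ) (x * q)⁻¹ R
    rw [invOf_eq_inv, inv_inv, Polynomial.eval₂_id, Polynomial.eval₂_id, ← he] at h1
    rw [← h1, mul_comm ((x * q) ^ e), mul_assoc, ← mul_pow, inv_mul_cancel₀ hxq, one_pow, mul_one]
  set L1 : ℚ[X] := C ((-1) ^ r) * R.reverse.comp (C q * X) with hL1
  set L2 : ℚ[X] := C (q ^ e * ε) * R.comp (C q⁻¹ * X) with hL2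
  have hev : ∀ x : ℚ, x ≠ 0 → x ≠ 1 → L1.eval x = L2.eval x := by
    intro x hx0 hx1
    rw [hL1, hL2, eval_mul, eval_mul, eval_C, eval_C, eval_comp, eval_comp, eval_mul, eval_mul,
      eval_C, eval_C, eval_X, mul_comm q x, ← hrev x hx0, mul_pow]
    have h1 := key x hx0 hx1
    have h2 : q⁻¹ * x = x / q := by field_simp
    rw [h2]
    linear_combination q ^ e * h1
  have hL : L1 = L2 := by
    apply Polynomial.eq_of_infinite_eval_eq
    refine Set.Infinite.mono ?_ (Set.Infinite.diff (s := Set.univ) Set.infinite_univ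
      (Set.toFinite ({0, 1} : Set ℚ)))
    intro x hx
    simp only [Set.mem_diff, Set.mem_univ, true_and, Set.mem_insert_iff, Set.mem_singleton_iff,
      not_or] at hx
    exact hev x hx.1 hx.2
  have h1 := congrArg (Polynomial.eval 1) hL
  rw [hL1, hL2, eval_mul, eval_mul, eval_C, eval_C, eval_comp, eval_comp, eval_mul, eval_mul,
    eval_C, eval_C, eval_X, mul_comm q 1, ← hrev 1 one_ne_zero, one_mul, mul_one] at h1
  have h3 : q ^ e * R.eval q⁻¹ ≠ 0 := mul_ne_zero (pow_ne_zero e hq) hRe
  have h4 : (q ^ e * R.eval q⁻¹) * ε = (q ^ e * R.eval q⁻¹) * (-1) ^ r := by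
    linear_combination -h1
  exact mul_left_cancel₀ h3 h4

end sign

end Pool.Agent.TH943.LG
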